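import Mathlib

/-! MP_2d49c6_co: every rational parameter `0 < α ≤ 1/(k-1)` occurs for a FAT `k`-coloring of a
connected graph of FAT chromatic number exactly `k`. -/

namespace Pool.Agent.Results.MP_2d49c6_co.FairTolerant

open Classical

/-- Number of neighbours of `v` in the class `i` of the coloring `c`. -/
noncomputable def nbr {V : Type} [Fintype V] (G : SimpleGraph V) {k : ℕ} (c : V → Fin k) (v : V)
    (i : Fin k) : ℕ := (Finset.univ.filter (fun w => G.Adj v w ∧ c w = i)).card

/-- Degree. -/
noncomputable def deg {V : Type} [Fintype V] (G : SimpleGraph V) (v : V) : ℕ :=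
  (Finset.univ.filter (fun w => G.Adj v w)).card

/-- FAT `k`-coloring with parameter `α`. -/
structure IsFAT {V : Type} [Fintype V] (G : SimpleGraph V) (k : ℕ) (c : V → Fin k) (α : ℝ) :
    Prop where
  surj : Function.Surjective c
  nonneg : 0 ≤ α
  le_one : α ≤ 1
  other : ∀ v i, c v ≠ i → (nbr G c v i : ℝ) = α * deg G v
  own : ∀ v i, c v = i → (nbr G c v i : ℝ) = (1 - ((k : ℝ) - 1) * α) * deg G v

/-- The FAT chromatic number. -/
noncomputable def chiFAT {V : Type} [Fintype V] (G : SimpleGraph V) : ℕ :=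
  sSup {k | ∃ (c : V → Fin k) (α : ℝ), IsFAT G k c α}

theorem sum_nbr {V : Type} [Fintype V] (G : SimpleGraph V) {k : ℕ} (c : V → Fin k) (v : V) :
    ∑ i, nbr G c v i = deg G v := by
  unfold nbr deg
  rw [Finset.card_eq_sum_card_fiberwise (f := c) (t := Finset.univ) (fun _ _ => Finset.mem_univ _)]
  apply Finset.sum_congr rfl
  intro i _
  rw [Finset.filter_filter]

theorem chi_eq {V : Type} [Fintype V] (G : SimpleGraph V) (k : ℕ) (c : V → Fin k) (α : ℝ)
    (h : IsFAT G k c α)
    (hle : ∀ (k' : ℕ) (c' : V → Fin k') (α' : ℝ), IsFAT G k' c' α' → k' ≤ k) : chiFAT G = k := by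
  apply IsGreatest.csSup_eq
  exact ⟨⟨c, α, h⟩, fun k' ⟨c', α', h'⟩ => hle k' c' α' h'⟩

/-! ### The construction -/

section construction

variable (k p r M : ℕ)

/-- Prescribed sizes. -/
def sz (i l : Fin k) : ℕ := if l = i then r else p

/-- Hubs. -/
abbrev Hub := Fin k × Fin M

/-- Non-hubs: a class `i` and a choice of subsets of the hub sets of the prescribed sizes. -/
abbrev Non := {t : Fin k × (Fin k → Finset (Fin M)) // ∀ l, (t.2 l).card = sz k p r t.1 l}

/-- Adjacency. -/
def adj : (Hub k M) ⊕ (Non k p r M) → (Hub k M) ⊕ (Non k p r M) → Prop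
  | .inl h, .inr t => h.2 ∈ t.1.2 h.1
  | .inr t, .inl h => h.2 ∈ t.1.2 h.1
  | _, _ => False

/-- The graph. -/
def graph : SimpleGraph ((Hub k M) ⊕ (Non k p r M)) where
  Adj := adj k p r M
  symm := ⟨by rintro (a | a) (b | b) h <;> exact h⟩
  loopless := ⟨by rintro (a | a) h <;> exact h⟩

/-- The coloring. -/
def col : (Hub k M) ⊕ (Non k p r M) → Fin k
  | .inl h => h.1
  | .inr t => t.1.1

variable {k p r M}

theorem card_mem (n : ℕ) (hM : 1 ≤ M) (hn : 1 ≤ n) (x : Fin M) :
    M * ((Finset.powersetCard n (Finset.univ : Finset (Fin M))).filter (fun s => x ∈ s)).card =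
      n * M.choose n := by
  obtain ⟨m, rfl⟩ : ∃ m, M = m + 1 := ⟨M - 1, by omega⟩
  obtain ⟨n, rfl⟩ : ∃ n', n = n' + 1 := ⟨n - 1, by omega⟩
  have h1 : (Finset.univ : Finset (Fin (m + 1))) = insert x (Finset.univ.erase x) := by
    rw [Finset.insert_erase (Finset.mem_univ x)]
  have h2 : (Finset.powersetCard (n + 1) (Finset.univ : Finset (Fin (m + 1)))).filter
      (fun s => x ∈ s) = (Finset.powersetCard n (Finset.univ.erase x)).image (insert x) := by
    rw [h1, Finset.powersetCard_succ_insert (by simp), Finset.erase_insert (by simp)]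
    ext s
    simp only [Finset.mem_filter, Finset.mem_union, Finset.mem_image, Finset.mem_powersetCard]
    constructor
    · rintro ⟨h | h, hx⟩
      · have := h.1 hx
        simp at this
      · exact h
    · intro h
      refine ⟨Or.inr h, ?_⟩
      obtain ⟨t, _, rfl⟩ := h
      simp
  rw [h2, Finset.card_image_of_injOn, Finset.card_powersetCard,
    Finset.card_erase_of_mem (Finset.mem_univ x), Finset.card_univ, Fintype.card_fin,
    Nat.add_sub_cancel, Nat.add_one_mul_choose_eq]
  · ring
  · intro s hs t ht hst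
    have hs1 := (Finset.mem_powersetCard.1 (Finset.mem_coe.1 hs)).1
    have ht1 := (Finset.mem_powersetCard.1 (Finset.mem_coe.1 ht)).1
    have hs' : x ∉ s := fun h => by simpa using hs1 h
    have ht' : x ∉ t := fun h => by simpa using ht1 h
    rw [← Finset.erase_insert hs', ← Finset.erase_insert ht', hst]

theorem sz_sum (i : Fin k) : ∑ l, sz k p r i l = r + (k - 1) * p := by
  unfold sz
  rw [← Finset.add_sum_erase _ _ (Finset.mem_univ i)]
  rw [if_pos rfl, Finset.sum_congr rfl (g := fun _ => p)
    (fun l hl => if_neg (Finset.ne_of_mem_erase hl)), Finset.sum_const,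
    Finset.card_erase_of_mem (Finset.mem_univ i), Finset.card_univ, Fintype.card_fin, smul_eq_mul]

theorem sz_sum' (j : Fin k) : ∑ i, sz k p r i j = r + (k - 1) * p := by
  rw [← sz_sum j]
  apply Finset.sum_congr rfl
  intro i _
  unfold sz
  by_cases h : i = j
  · subst h; rfl
  · rw [if_neg h, if_neg (Ne.symm h)]

theorem sz_prod (i : Fin k) :
    ∏ l, M.choose (sz k p r i l) = M.choose r * M.choose p ^ (k - 1) := by
  unfold sz
  rw [← Finset.mul_prod_erase _ _ (Finset.mem_univ i)]
  rw [if_pos rfl, Finset.prod_congr rfl (g := fun _ => M.choose p)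
    (fun l hl => by rw [if_neg (Finset.ne_of_mem_erase hl)]), Finset.prod_const,
    Finset.card_erase_of_mem (Finset.mem_univ i), Finset.card_univ, Fintype.card_fin]

theorem nbr_non (t : Non k p r M) (l : Fin k) :
    nbr (graph k p r M) (col k p r M) (.inr t) l = sz k p r t.1.1 l := by
  rw [← t.2 l]
  unfold nbr
  symm
  apply Finset.card_bij (fun x _ => (Sum.inl (l, x) : (Hub k M) ⊕ (Non k p r M)))
  · intro x hx
    rw [Finset.mem_filter]
    exact ⟨Finset.mem_univ _, hx, rfl⟩
  · intro x _ y _ h
    exact (Prod.ext_iff.1 (Sum.inl.inj h)).2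
  · rintro (⟨j, x⟩ | t') hw
    · rw [Finset.mem_filter] at hw
      obtain ⟨_, h1, h2⟩ := hw
      have h3 : j = l := h2
      subst h3
      exact ⟨x, h1, rfl⟩
    · rw [Finset.mem_filter] at hw
      exact absurd hw.2.1 id

theorem deg_non (t : Non k p r M) : deg (graph k p r M) (.inr t) = r + (k - 1) * p := by
  rw [← sum_nbr _ (col k p r M), ← sz_sum t.1.1]
  exact Finset.sum_congr rfl (fun l _ => nbr_non t l)

theorem nbr_hub (hM : 1 ≤ M) (hp : 1 ≤ p) (hr : 1 ≤ r) (h : Hub k M) (i : Fin k) :
    M * nbr (graph k p r M) (col k p r M) (.inl h) i =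
      sz k p r i h.1 * (M.choose r * M.choose p ^ (k - 1)) := by
  obtain ⟨j, x⟩ := h
  let A : Fin k → Finset (Finset (Fin M)) :=
    fun l => Finset.powersetCard (sz k p r i l) Finset.univ
  have h1 : nbr (graph k p r M) (col k p r M) (.inl (j, x)) i =
      (Fintype.piFinset (Function.update A j ((A j).filter (fun s => x ∈ s)))).card := by
    unfold nbr
    symm
    have key : ∀ S ∈ Fintype.piFinset (Function.update A j ((A j).filter (fun s => x ∈ s))),
        (∀ l, (S l).card = sz k p r i l) ∧ x ∈ S j := by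
      intro S hS
      rw [Fintype.mem_piFinset] at hS
      have hj := hS j
      rw [Function.update_self, Finset.mem_filter] at hj
      refine ⟨fun l => ?_, hj.2⟩
      by_cases hl : l = j
      · subst hl
        exact (Finset.mem_powersetCard.1 hj.1).2
      · have := hS l
        rw [Function.update_of_ne hl] at this
        exact (Finset.mem_powersetCard.1 this).2
    apply Finset.card_bij (fun S hS =>
      (Sum.inr ⟨(i, S), (key S hS).1⟩ : (Hub k M) ⊕ (Non k p r M)))
    · intro S hS
      rw [Finset.mem_filter]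
      exact ⟨Finset.mem_univ _, (key S hS).2, rfl⟩
    · intro S _ S' _ hSS
      have := congrArg Subtype.val (Sum.inr.inj hSS)
      exact (Prod.ext_iff.1 this).2
    · rintro (h' | ⟨⟨i', S⟩, hS⟩) hw
      · rw [Finset.mem_filter] at hw
        exact absurd hw.2.1 id
      · rw [Finset.mem_filter] at hw
        obtain ⟨_, h2, h3⟩ := hw
        have h4 : i' = i := h3
        subst h4
        refine ⟨S, ?_, rfl⟩
        rw [Fintype.mem_piFinset]
        intro l
        by_cases hl : l = j
        · subst hl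
          rw [Function.update_self, Finset.mem_filter]
          exact ⟨Finset.mem_powersetCard.2 ⟨Finset.subset_univ _, hS l⟩, h2⟩
        · rw [Function.update_of_ne hl]
          exact Finset.mem_powersetCard.2 ⟨Finset.subset_univ _, hS l⟩
  rw [h1, Fintype.card_piFinset, ← sz_prod i, ← Finset.mul_prod_erase _ _ (Finset.mem_univ j),
    ← Finset.mul_prod_erase Finset.univ (fun l => M.choose (sz k p r i l)) (Finset.mem_univ j),
    Function.update_self]
  have h2 : ∏ l ∈ Finset.univ.erase j,
      (Function.update A j ((A j).filter (fun s => x ∈ s)) l).card =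
      ∏ l ∈ Finset.univ.erase j, M.choose (sz k p r i l) := by
    apply Finset.prod_congr rfl
    intro l hl
    rw [Function.update_of_ne (Finset.ne_of_mem_erase hl), Finset.card_powersetCard,
      Finset.card_univ, Fintype.card_fin]
  rw [h2, ← mul_assoc, ← mul_assoc]
  congr 1
  apply card_mem _ hM
  unfold sz
  split_ifs <;> assumption

theorem deg_hub (hM : 1 ≤ M) (hp : 1 ≤ p) (hr : 1 ≤ r) (h : Hub k M) :
    M * deg (graph k p r M) (.inl h) =
      (r + (k - 1) * p) * (M.choose r * M.choose p ^ (k - 1)) := by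
  rw [← sum_nbr _ (col k p r M), Finset.mul_sum, ← sz_sum' h.1, Finset.sum_mul]
  exact Finset.sum_congr rfl (fun i _ => nbr_hub hM hp hr h i)

/-- The coloring is proportional: `nbr * q = size * deg`. -/
theorem prop_all (hM : 1 ≤ M) (hp : 1 ≤ p) (hr : 1 ≤ r) (v : (Hub k M) ⊕ (Non k p r M))
    (i : Fin k) : nbr (graph k p r M) (col k p r M) v i * (r + (k - 1) * p) =
      (if i = col k p r M v then r else p) * deg (graph k p r M) v := by
  rcases v with h | t
  · have h1 := nbr_hub hM hp hr h i
    have h2 := deg_hub hM hp hr h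
    have h3 : sz k p r i h.1 = if i = h.1 then r else p := by
      unfold sz
      by_cases hh : i = h.1
      · rw [if_pos hh, if_pos hh.symm]
      · rw [if_neg hh, if_neg (Ne.symm hh)]
    change _ = (if i = h.1 then r else p) * _
    rw [← h3]
    apply Nat.eq_of_mul_eq_mul_left (show 0 < M by omega)
    calc M * (nbr (graph k p r M) (col k p r M) (Sum.inl h) i * (r + (k - 1) * p))
        = (M * nbr (graph k p r M) (col k p r M) (Sum.inl h) i) * (r + (k - 1) * p) := by ring
      _ = (sz k p r i h.1 * (M.choose r * M.choose p ^ (k - 1))) * (r + (k - 1) * p) := by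
          rw [h1]
      _ = sz k p r i h.1 * ((r + (k - 1) * p) * (M.choose r * M.choose p ^ (k - 1))) := by ring
      _ = sz k p r i h.1 * (M * deg (graph k p r M) (Sum.inl h)) := by rw [h2]
      _ = _ := by ring
  · rw [nbr_non, deg_non]
    rfl

theorem exists_non (hpM : p + 2 ≤ M) (hrM : r + 2 ≤ M) (hp : 1 ≤ p) (hr : 1 ≤ r) (i : Fin k)
    (e : Fin k → Fin M) (F : Fin k → Finset (Fin M)) (he : ∀ l, e l ∉ F l)
    (hF : ∀ l, (F l).card ≤ 2) :
    ∃ t : Non k p r M, t.1.1 = i ∧ ∀ l, e l ∈ t.1.2 l ∧ ∀ x ∈ t.1.2 l, x ∉ F l := by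
  have : ∀ l, ∃ S : Finset (Fin M), S.card = sz k p r i l ∧ e l ∈ S ∧ ∀ x ∈ S, x ∉ F l := by
    intro l
    have hsz : 1 ≤ sz k p r i l ∧ sz k p r i l + 2 ≤ M := by
      unfold sz
      split_ifs <;> omega
    obtain ⟨S, h1, h2, h3⟩ := Finset.exists_subsuperset_card_eq (s := {e l})
      (t := Finset.univ \ F l) (n := sz k p r i l)
      (by
        rw [Finset.singleton_subset_iff, Finset.mem_sdiff]
        exact ⟨Finset.mem_univ _, he l⟩) (by simpa using hsz.1) (by
        rw [Finset.card_sdiff_of_subset (Finset.subset_univ _), Finset.card_univ,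
          Fintype.card_fin]
        have := hF l
        omega)
    refine ⟨S, h3, h1 (Finset.mem_singleton_self _), fun x hx => ?_⟩
    exact (Finset.mem_sdiff.1 (h2 hx)).2
  choose S hS using this
  exact ⟨⟨(i, S), fun l => (hS l).1⟩, rfl, fun l => (hS l).2⟩

theorem connected (hk : 2 ≤ k) (hpM : p + 2 ≤ M) (hrM : r + 2 ≤ M) (hp : 1 ≤ p) (hr : 1 ≤ r) :
    (graph k p r M).Connected := by
  have key : ∀ (j j' : Fin k) (x x' : Fin M), j ≠ j' →
      (graph k p r M).Reachable (.inl (j, x)) (.inl (j', x')) := by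
    intro j j' x x' hj
    obtain ⟨t, _, ht⟩ := exists_non hpM hrM hp hr j (fun l => if l = j then x else x')
      (fun _ => ∅) (fun l => Finset.notMem_empty _) (fun l => by simp)
    have h1 := (ht j).1
    have h2 := (ht j').1
    rw [if_pos rfl] at h1
    rw [if_neg (Ne.symm hj)] at h2
    have a1 : (graph k p r M).Adj (.inl (j, x)) (.inr t) := h1
    have a2 : (graph k p r M).Adj (.inr t) (.inl (j', x')) := h2
    exact a1.reachable.trans a2.reachable
  have x0 : Fin M := ⟨0, by omega⟩
  have hub : ∀ h : Hub k M, (graph k p r M).Reachable (.inl (⟨0, by omega⟩, x0)) (.inl h) := by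
    rintro ⟨j, x⟩
    by_cases hj : j = ⟨0, by omega⟩
    · have h1 : j ≠ (⟨1, by omega⟩ : Fin k) := by
        rw [hj]
        intro h
        have := congrArg Fin.val h
        simp at this
      exact (key _ ⟨1, by omega⟩ x0 x0 (by rw [← hj]; exact h1)).trans
        (key _ _ x0 x (Ne.symm h1))
    · exact key _ _ x0 x (Ne.symm hj)
  rw [SimpleGraph.connected_iff_exists_forall_reachable]
  refine ⟨.inl (⟨0, by omega⟩, x0), ?_⟩
  rintro (h | t)
  · exact hub h
  · have hne : (t.1.2 ⟨0, by omega⟩).Nonempty := by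
      rw [← Finset.card_pos, t.2]
      unfold sz
      split_ifs <;> omega
    obtain ⟨x, hx⟩ := hne
    have a : (graph k p r M).Adj (.inl (⟨0, by omega⟩, x)) (.inr t) := hx
    exact (hub _).trans a.reachable

/-- Swapping one hub changes the class counts. -/
theorem swap_count {k' : ℕ} (c : (Hub k M) ⊕ (Non k p r M) → Fin k') (j : Fin k) (x y : Fin M)
    (t : Non k p r M) (hx : x ∈ t.1.2 j) (hy : y ∉ t.1.2 j) :
    ∃ t' : Non k p r M, ∀ a : Fin k',
      nbr (graph k p r M) c (.inr t) a + (if c (.inl (j, y)) = a then 1 else 0) =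
      nbr (graph k p r M) c (.inr t') a + (if c (.inl (j, x)) = a then 1 else 0) := by
  have hxy : x ≠ y := fun h => hy (h ▸ hx)
  have hcard : ∀ l, ((Function.update t.1.2 j (insert y ((t.1.2 j).erase x))) l).card =
      sz k p r t.1.1 l := by
    intro l
    by_cases hl : l = j
    · subst hl
      rw [Function.update_self, Finset.card_insert_of_notMem
        (fun h => hy (Finset.mem_of_mem_erase h)), Finset.card_erase_of_mem hx, ← t.2 l]
      have : 0 < (t.1.2 l).card := Finset.card_pos.2 ⟨x, hx⟩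
      omega
    · rw [Function.update_of_ne hl]
      exact t.2 l
  let t' : Non k p r M := ⟨(t.1.1, Function.update t.1.2 j (insert y ((t.1.2 j).erase x))), hcard⟩
  have hadj : ∀ w, ((graph k p r M).Adj (.inr t) w ∧ w ≠ .inl (j, x)) ↔
      ((graph k p r M).Adj (.inr t') w ∧ w ≠ .inl (j, y)) := by
    rintro (⟨l, z⟩ | s)
    · change (z ∈ t.1.2 l ∧ _) ↔ (z ∈ Function.update t.1.2 j (insert y ((t.1.2 j).erase x)) l ∧ _)
      by_cases hl : l = j
      · subst hl
        rw [Function.update_self, Finset.mem_insert, Finset.mem_erase]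
        simp only [ne_eq, Sum.inl.injEq, Prod.mk.injEq, true_and]
        constructor
        · rintro ⟨h1, h2⟩
          exact ⟨Or.inr ⟨h2, h1⟩, fun h => hy (h ▸ h1)⟩
        · rintro ⟨h1 | h1, h2⟩
          · exact absurd h1 h2
          · exact ⟨h1.2, h1.1⟩
      · rw [Function.update_of_ne hl]
        simp [hl]
    · constructor
      · rintro ⟨h, _⟩
        exact absurd h id
      · rintro ⟨h, _⟩
        exact absurd h id
  have hx' : (graph k p r M).Adj (.inr t) (.inl (j, x)) := hx
  have hy' : (graph k p r M).Adj (.inr t') (.inl (j, y)) := by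
    change y ∈ Function.update t.1.2 j (insert y ((t.1.2 j).erase x)) j
    rw [Function.update_self]
    exact Finset.mem_insert_self _ _
  have count : ∀ (s : Non k p r M) (z : Fin M), (graph k p r M).Adj (.inr s) (.inl (j, z)) →
      ∀ a, nbr (graph k p r M) c (.inr s) a = (Finset.univ.filter (fun w =>
        ((graph k p r M).Adj (.inr s) w ∧ w ≠ .inl (j, z)) ∧ c w = a)).card +
        (if c (.inl (j, z)) = a then 1 else 0) := by
    intro s z hz a
    unfold nbr
    by_cases ha : c (.inl (j, z)) = a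
    · rw [if_pos ha]
      have : (Finset.univ.filter (fun w => (graph k p r M).Adj (.inr s) w ∧ c w = a)) =
          insert (Sum.inl (j, z)) (Finset.univ.filter (fun w =>
            ((graph k p r M).Adj (.inr s) w ∧ w ≠ .inl (j, z)) ∧ c w = a)) := by
        ext w
        simp only [Finset.mem_filter, Finset.mem_univ, true_and, Finset.mem_insert]
        by_cases hw : w = .inl (j, z)
        · subst hw
          simp [hz, ha]
        · simp [hw]
      rw [this, Finset.card_insert_of_notMem (by simp)]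
    · rw [if_neg ha, Nat.add_zero]
      congr 1
      ext w
      simp only [Finset.mem_filter, Finset.mem_univ, true_and]
      constructor
      · rintro ⟨h1, h2⟩
        exact ⟨⟨h1, fun h => ha (h ▸ h2)⟩, h2⟩
      · rintro ⟨⟨h1, _⟩, h2⟩
        exact ⟨h1, h2⟩
  refine ⟨t', fun a => ?_⟩
  rw [count t x hx' a, count t' y hy' a]
  have : (Finset.univ.filter (fun w =>
        ((graph k p r M).Adj (.inr t) w ∧ w ≠ .inl (j, x)) ∧ c w = a)) =
      (Finset.univ.filter (fun w =>
        ((graph k p r M).Adj (.inr t') w ∧ w ≠ .inl (j, y)) ∧ c w = a)) := by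
    ext w
    simp only [Finset.mem_filter, Finset.mem_univ, true_and]
    rw [hadj w]
  rw [this]
  ring

end construction

/-! ### Upper bound -/

theorem alpha_pos {V : Type} [Fintype V] {G : SimpleGraph V} (hG : G.Connected) {k : ℕ}
    (hk : 2 ≤ k) {c : V → Fin k} {α : ℝ} (h : IsFAT G k c α) : 0 < α := by
  rcases h.nonneg.lt_or_eq with h1 | h1
  · exact h1
  · exfalso
    have hadj : ∀ v w, G.Adj v w → c v = c w := by
      intro v w hvw
      by_contra hne
      have h2 := h.other v (c w) hne
      rw [← h1, zero_mul] at h2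
      have h3 : nbr G c v (c w) = 0 := by exact_mod_cast h2
      unfold nbr at h3
      rw [Finset.card_eq_zero, Finset.filter_eq_empty_iff] at h3
      exact h3 (Finset.mem_univ w) ⟨hvw, rfl⟩
    have hall : ∀ v w, c v = c w := by
      intro v w
      obtain ⟨p⟩ := hG.preconnected v w
      induction p with
      | nil => rfl
      | cons h' _ ih => exact (hadj _ _ h').trans ih
    obtain ⟨v, hv⟩ := h.surj ⟨0, by omega⟩
    obtain ⟨w, hw⟩ := h.surj ⟨1, by omega⟩
    have := hall v w
    rw [hv, hw] at this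
    have := congrArg Fin.val this
    simp at this

theorem sees {V : Type} [Fintype V] {G : SimpleGraph V} {k : ℕ} {c : V → Fin k} {α : ℝ}
    (h : IsFAT G k c α) (hα : 0 < α) (v : V) (hv : 0 < deg G v) (i : Fin k) (hi : c v ≠ i) :
    ∃ w, G.Adj v w ∧ c w = i := by
  have h1 := h.other v i hi
  have h2 : (0 : ℝ) < nbr G c v i := by
    rw [h1]
    have : (0 : ℝ) < deg G v := by exact_mod_cast hv
    positivity
  have h3 : 0 < nbr G c v i := by exact_mod_cast h2
  unfold nbr at h3
  obtain ⟨w, hw⟩ := Finset.card_pos.1 h3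
  rw [Finset.mem_filter] at hw
  exact ⟨w, hw.2⟩

theorem upper {k p r M : ℕ} (hk : 2 ≤ k) (hpM : p + 2 ≤ M) (hrM : r + 2 ≤ M) (hp : 1 ≤ p)
    (hr : 1 ≤ r) {k' : ℕ} {c : (Hub k M) ⊕ (Non k p r M) → Fin k'} {α : ℝ}
    (h : IsFAT (graph k p r M) k' c α) : k' ≤ k := by
  by_contra hlt
  push Not at hlt
  have hk' : 3 ≤ k' := by omega
  have hα := alpha_pos (connected hk hpM hrM hp hr) (by omega) h
  have hdn : ∀ t : Non k p r M, 0 < deg (graph k p r M) (.inr t) := by
    intro t
    rw [deg_non]
    omega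
  have hdh : ∀ v : Hub k M, 0 < deg (graph k p r M) (.inl v) := by
    intro v
    have h1 := deg_hub (p := p) (r := r) (by omega) hp hr v
    have h2 : 0 < (r + (k - 1) * p) * (M.choose r * M.choose p ^ (k - 1)) := by
      have a1 : 0 < M.choose r := Nat.choose_pos (by omega)
      have a2 : 0 < M.choose p := Nat.choose_pos (by omega)
      positivity
    rw [← h1] at h2
    exact Nat.pos_of_mul_pos_left h2
  obtain ⟨X, hX⟩ : ∃ X : ℝ, X = α * ((r + (k - 1) * p : ℕ) : ℝ) := ⟨_, rfl⟩
  obtain ⟨Y, hY⟩ : ∃ Y : ℝ, Y = (1 - ((k' : ℝ) - 1) * α) * ((r + (k - 1) * p : ℕ) : ℝ) :=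
    ⟨_, rfl⟩
  have hnb : ∀ (t : Non k p r M) (a : Fin k'),
      (nbr (graph k p r M) c (.inr t) a : ℝ) = if c (.inr t) = a then Y else X := by
    intro t a
    split_ifs with ha
    · rw [h.own _ _ ha, deg_non, hY]
    · rw [h.other _ _ ha, deg_non, hX]
  -- the swap lemma
  have swap : ∀ (j : Fin k) (x y : Fin M), c (.inl (j, x)) ≠ c (.inl (j, y)) →
      ∀ t : Non k p r M, x ∈ t.1.2 j → y ∉ t.1.2 j →
      (Y - X = 1 ∧ c (.inr t) = c (.inl (j, x))) ∨ (X - Y = 1 ∧ c (.inr t) = c (.inl (j, y))) := by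
    intro j x y hne t hx hy
    obtain ⟨t', ht'⟩ := swap_count c j x y t hx hy
    have e1 := ht' (c (.inl (j, x)))
    have e2 := ht' (c (.inl (j, y)))
    rw [if_neg (Ne.symm hne), if_pos rfl, Nat.add_zero] at e1
    rw [if_pos rfl, if_neg hne, Nat.add_zero] at e2
    have f1 : (nbr (graph k p r M) c (.inr t) (c (.inl (j, x))) : ℝ) =
        nbr (graph k p r M) c (.inr t') (c (.inl (j, x))) + 1 := by exact_mod_cast e1
    have f2 : (nbr (graph k p r M) c (.inr t) (c (.inl (j, y))) : ℝ) + 1 =
        nbr (graph k p r M) c (.inr t') (c (.inl (j, y))) := by exact_mod_cast e2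
    rw [hnb, hnb] at f1 f2
    by_cases a1 : c (.inr t) = c (.inl (j, x))
    · by_cases a2 : c (.inr t') = c (.inl (j, x))
      · rw [if_pos a1, if_pos a2] at f1
        linarith
      · rw [if_pos a1, if_neg a2] at f1
        exact Or.inl ⟨by linarith, a1⟩
    · by_cases a2 : c (.inr t') = c (.inl (j, x))
      · rw [if_neg a1, if_pos a2] at f1
        right
        refine ⟨by linarith, ?_⟩
        by_contra a3
        rw [if_neg a3, if_neg (by rw [a2]; exact hne)] at f2
        linarith
      · rw [if_neg a1, if_neg a2] at f1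
        linarith
  have third : ∀ a b : Fin k', ∃ u, u ≠ a ∧ u ≠ b := by
    intro a b
    by_contra hcon
    push Not at hcon
    have h1 : (Finset.univ : Finset (Fin k')) ⊆ {a, b} := by
      intro u _
      rw [Finset.mem_insert, Finset.mem_singleton]
      by_cases hu : u = a
      · exact Or.inl hu
      · exact Or.inr (hcon u hu)
    have h2 := Finset.card_le_card h1
    rw [Finset.card_univ, Fintype.card_fin] at h2
    have h3 : ({a, b} : Finset (Fin k')).card ≤ 2 := Finset.card_le_two
    omega
  -- the hubs in one class are monochromatic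
  have mono : ∀ (j : Fin k) (x y : Fin M), c (.inl (j, x)) = c (.inl (j, y)) := by
    intro j x y
    by_contra hne
    obtain ⟨u, hu1, hu2⟩ := third (c (.inl (j, x))) (c (.inl (j, y)))
    obtain ⟨w, hw1, hw2⟩ := sees h hα (.inl (j, x)) (hdh _) u (Ne.symm hu1)
    rcases w with w | t
    · exact hw1
    · have hx : x ∈ t.1.2 j := hw1
      have hy : y ∈ t.1.2 j := by
        by_contra hy
        rcases swap j x y hne t hx hy with h1 | h1
        · exact hu1 (hw2 ▸ h1.2)
        · exact hu2 (hw2 ▸ h1.2)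
      obtain ⟨z, hz⟩ : ∃ z, z ∉ t.1.2 j := by
        by_contra hcon
        push Not at hcon
        have h1 : (Finset.univ : Finset (Fin M)) ⊆ t.1.2 j := fun z _ => hcon z
        have h2 := Finset.card_le_card h1
        rw [Finset.card_univ, Fintype.card_fin, t.2 j] at h2
        unfold sz at h2
        split_ifs at h2 <;> omega
      have hXY : X - Y = 1 ∧ c (.inl (j, z)) = u := by
        by_cases hxz : c (.inl (j, x)) = c (.inl (j, z))
        · have hyz : c (.inl (j, y)) ≠ c (.inl (j, z)) := by
            rw [← hxz]; exact Ne.symm hne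
          rcases swap j y z hyz t hy hz with h1 | h1
          · exact absurd (hw2 ▸ h1.2) hu2
          · exact ⟨h1.1, by rw [← h1.2, hw2]⟩
        · rcases swap j x z hxz t hx hz with h1 | h1
          · exact absurd (hw2 ▸ h1.2) hu1
          · exact ⟨h1.1, by rw [← h1.2, hw2]⟩
      have hxy : x ≠ y := fun hh => hne (by rw [hh])
      have hxz : x ≠ z := fun hh => hz (hh ▸ hx)
      obtain ⟨t2, _, ht2⟩ := exists_non hpM hrM hp hr j (fun _ => x) (fun _ => {y, z})
        (fun _ => by simp [hxy, hxz]) (fun _ => Finset.card_le_two)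
      have m1 := (ht2 j).1
      have m2 : y ∉ t2.1.2 j := fun hh => (ht2 j).2 y hh (by simp)
      have m3 : z ∉ t2.1.2 j := fun hh => (ht2 j).2 z hh (by simp)
      rcases swap j x y hne t2 m1 m2 with h1 | h1
      · linarith [h1.1, hXY.1]
      · have hxz' : c (.inl (j, x)) ≠ c (.inl (j, z)) := by
          rw [hXY.2]; exact Ne.symm hu1
        rcases swap j x z hxz' t2 m1 m3 with h2 | h2
        · linarith [h2.1, hXY.1]
        · apply hu2
          rw [← hXY.2, ← h2.2, h1.2]
  have x0 : Fin M := ⟨0, by omega⟩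
  have nonsees : ∀ (t : Non k p r M) (a : Fin k'), c (.inr t) ≠ a →
      ∃ l, c (.inl (l, x0)) = a := by
    intro t a ha
    obtain ⟨w, hw1, hw2⟩ := sees h hα (.inr t) (hdn t) a ha
    rcases w with ⟨l, z⟩ | w
    · exact ⟨l, by rw [mono l x0 z]; exact hw2⟩
    · exact absurd hw1 id
  have notrange : ∀ (t : Non k p r M) (l : Fin k), c (.inl (l, x0)) ≠ c (.inr t) := by
    intro t l hl
    have hs : Function.Surjective (fun l : Fin k => c (.inl (l, x0))) := by
      intro a
      by_cases ha : c (.inr t) = a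
      · exact ⟨l, by simp only [hl, ha]⟩
      · exact nonsees t a ha
    have := Fintype.card_le_of_surjective _ hs
    rw [Fintype.card_fin, Fintype.card_fin] at this
    omega
  obtain ⟨j0⟩ : Nonempty (Fin k) := ⟨⟨0, by omega⟩⟩
  obtain ⟨t0, _, ht0⟩ := exists_non hpM hrM hp hr j0 (fun _ => x0) (fun _ => ∅)
    (fun _ => Finset.notMem_empty _) (fun _ => by simp)
  have same : ∀ t : Non k p r M, c (.inr t) = c (.inr t0) := by
    intro t
    by_contra hne
    obtain ⟨l, hl⟩ := nonsees t (c (.inr t0)) hne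
    exact notrange t0 l hl
  obtain ⟨u, hu1, hu2⟩ := third (c (.inl (j0, x0))) (c (.inr t0))
  obtain ⟨w, hw1, hw2⟩ := sees h hα (.inl (j0, x0)) (hdh _) u (Ne.symm hu1)
  rcases w with w | t
  · exact hw1
  · exact hu2 (by rw [← hw2, same t])

/-- The endpoint: complete graphs. -/
theorem endpoint (k : ℕ) (hk : 2 ≤ k) (α : ℝ) (hα : α = 1 / ((k : ℝ) - 1)) :
    chiFAT (⊤ : SimpleGraph (Fin k)) = k ∧ IsFAT (⊤ : SimpleGraph (Fin k)) k id α := by
  have hk1 : (0 : ℝ) < (k : ℝ) - 1 := by
    have : (2 : ℝ) ≤ k := by exact_mod_cast hk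
    linarith
  have hdeg : ∀ v : Fin k, (deg (⊤ : SimpleGraph (Fin k)) v : ℝ) = (k : ℝ) - 1 := by
    intro v
    have : deg (⊤ : SimpleGraph (Fin k)) v = k - 1 := by
      have : deg (⊤ : SimpleGraph (Fin k)) v = (Finset.univ.erase v).card := by
        unfold deg
        congr 1
        ext w
        simp [eq_comm]
      rw [this, Finset.card_erase_of_mem (Finset.mem_univ v), Finset.card_univ, Fintype.card_fin]
    rw [this, Nat.cast_sub (by omega)]
    norm_num
  have hfat : IsFAT (⊤ : SimpleGraph (Fin k)) k id α := by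
    refine ⟨Function.surjective_id, by rw [hα]; positivity, ?_, ?_, ?_⟩
    · rw [hα, div_le_one hk1]
      have : (2 : ℝ) ≤ k := by exact_mod_cast hk
      linarith
    · intro v i hi
      rw [hdeg, hα, one_div, inv_mul_cancel₀ hk1.ne']
      have : nbr (⊤ : SimpleGraph (Fin k)) id v i = 1 := by
        unfold nbr
        rw [Finset.card_eq_one]
        refine ⟨i, ?_⟩
        ext w
        simp only [SimpleGraph.top_adj, ne_eq, id_eq, Finset.mem_filter, Finset.mem_univ,
          true_and, Finset.mem_singleton]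
        constructor
        · exact fun h => h.2
        · intro h
          exact ⟨fun h' => hi (by rw [h', h]; rfl), h⟩
      rw [this]; norm_num
    · intro v i hi
      rw [hα, mul_one_div_cancel hk1.ne', sub_self, zero_mul]
      have : nbr (⊤ : SimpleGraph (Fin k)) id v i = 0 := by
        unfold nbr
        rw [Finset.card_eq_zero]
        ext w
        simp only [Finset.mem_filter, Finset.mem_univ, true_and, Finset.notMem_empty, iff_false]
        rintro ⟨h1, h2⟩
        exact h1 (hi.trans h2.symm)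
      rw [this]; norm_num
  refine ⟨chi_eq _ k id α hfat ?_, hfat⟩
  intro k' c' α' h'
  have := Fintype.card_le_of_surjective _ h'.surj
  rwa [Fintype.card_fin, Fintype.card_fin] at this

/-- Every rational `0 < α ≤ 1/(k-1)`, `k ≥ 2`, is the parameter of a FAT `k`-coloring of a
connected graph with FAT chromatic number exactly `k`. -/
theorem result : ∀ (k : ℕ), 2 ≤ k → ∀ α : ℚ, 0 < α → α ≤ 1 / ((k : ℚ) - 1) →
    ∃ (V : Type) (_ : Fintype V) (G : SimpleGraph V), G.Connected ∧ chiFAT G = k ∧
      ∃ c : V → Fin k, IsFAT G k c (α : ℝ) := by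
  intro k hk α hα hle
  have hkq : (0 : ℚ) < (k : ℚ) - 1 := by
    have : (2 : ℚ) ≤ k := by exact_mod_cast hk
    linarith
  rcases hle.lt_or_eq with hlt | heq
  · have hnum : 0 < α.num := Rat.num_pos.2 hα
    obtain ⟨p, hp⟩ : ∃ p : ℕ, (p : ℤ) = α.num := ⟨α.num.toNat, Int.toNat_of_nonneg hnum.le⟩
    have hp1 : 1 ≤ p := by omega
    have hαeq : α = (p : ℚ) / (α.den : ℚ) := by
      rw [← Int.cast_natCast (R := ℚ) p, hp]
      exact (Rat.num_div_den α).symm
    have hden : 0 < α.den := α.den_pos
    have hdq : (0 : ℚ) < (α.den : ℚ) := by exact_mod_cast hden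
    have hlt' : (k - 1) * p < α.den := by
      rw [hαeq, div_lt_div_iff₀ hdq hkq, one_mul] at hlt
      have : (((k - 1) * p : ℕ) : ℚ) < (α.den : ℚ) := by
        rw [Nat.cast_mul, Nat.cast_sub (by omega), Nat.cast_one, mul_comm]
        exact hlt
      exact_mod_cast this
    obtain ⟨r, hr⟩ : ∃ r, α.den = r + (k - 1) * p := ⟨α.den - (k - 1) * p, by omega⟩
    have hr1 : 1 ≤ r := by omega
    have hM1 : p + 2 ≤ p + r + 2 := by omega
    have hM2 : r + 2 ≤ p + r + 2 := by omega
    have hαR : (α : ℝ) = (p : ℝ) / ((r + (k - 1) * p : ℕ) : ℝ) := by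
      rw [← hr]
      conv_lhs => rw [hαeq]
      push_cast
      rfl
    have hqR : (0 : ℝ) < ((r + (k - 1) * p : ℕ) : ℝ) := by
      rw [← hr]; exact_mod_cast hden
    have hkR : (1 : ℝ) ≤ (k : ℝ) - 1 := by
      have : (2 : ℝ) ≤ k := by exact_mod_cast hk
      linarith
    have hfat : IsFAT (graph k p r (p + r + 2)) k (col k p r (p + r + 2)) (α : ℝ) := by
      refine ⟨?_, by rw [hαR]; positivity, ?_, ?_, ?_⟩
      · intro i
        exact ⟨.inl (i, ⟨0, by omega⟩), rfl⟩
      · rw [hαR, div_le_one hqR]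
        have : p ≤ r + (k - 1) * p := by
          have : 1 * p ≤ (k - 1) * p := Nat.mul_le_mul_right p (by omega)
          omega
        exact_mod_cast this
      · intro v i hi
        have h1 := prop_all (k := k) (M := p + r + 2) (by omega) hp1 hr1 v i
        rw [if_neg (Ne.symm hi)] at h1
        have h2 : (nbr (graph k p r (p + r + 2)) (col k p r (p + r + 2)) v i : ℝ) *
            ((r + (k - 1) * p : ℕ) : ℝ) = p * deg (graph k p r (p + r + 2)) v := by
          exact_mod_cast h1
        rw [hαR, div_mul_eq_mul_div, eq_div_iff hqR.ne']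
        exact h2
      · intro v i hi
        have h1 := prop_all (k := k) (M := p + r + 2) (by omega) hp1 hr1 v i
        rw [if_pos hi.symm] at h1
        have h2 : (nbr (graph k p r (p + r + 2)) (col k p r (p + r + 2)) v i : ℝ) *
            ((r + (k - 1) * p : ℕ) : ℝ) = r * deg (graph k p r (p + r + 2)) v := by
          exact_mod_cast h1
        have h3 : (1 - ((k : ℝ) - 1) * (α : ℝ)) = r / ((r + (k - 1) * p : ℕ) : ℝ) := by
          rw [hαR, eq_div_iff hqR.ne', sub_mul, mul_assoc, div_mul_cancel₀ _ hqR.ne']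
          push_cast [Nat.cast_sub (show 1 ≤ k by omega)]
          ring
        rw [h3, div_mul_eq_mul_div, eq_div_iff hqR.ne']
        exact h2
    exact ⟨_, inferInstance, graph k p r (p + r + 2), connected hk hM1 hM2 hp1 hr1,
      chi_eq _ k _ _ hfat (fun k' c' α' h' => upper hk hM1 hM2 hp1 hr1 h'), _, hfat⟩
  · have hαR : (α : ℝ) = 1 / ((k : ℝ) - 1) := by
      rw [heq]; push_cast; rfl
    obtain ⟨h1, h2⟩ := endpoint k hk (α : ℝ) hαR
    have : Nonempty (Fin k) := ⟨⟨0, by omega⟩⟩
    exact ⟨Fin k, inferInstance, ⊤, SimpleGraph.connected_top, h1, id, h2⟩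

end Pool.Agent.Results.MP_2d49c6_co.FairTolerant
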